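import Mathlib
import Pool.Agent.Helper539.AuerWalk
import Pool.Agent.Helper539.AuerMain

namespace Pool.Agent.Results.MP_735d18_an.ZFCCounterexample

open Set Pool.Agent.Helper539.Auer

universe u

/-- `(x i, f i)` is an extended biorthogonal system indexed by an arbitrary type. -/
def Biorthogonal {E : Type} [NormedAddCommGroup E] [NormedSpace ℝ E] {I : Type u}
    (x : I → E) (f : I → (E →L[ℝ] ℝ)) : Prop :=
  (∀ i, f i (x i) = 1) ∧ ∀ i j, i ≠ j → f i (x j) = 0

/-- All vectors and all functionals have norm one. -/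
def Normal {E : Type} [NormedAddCommGroup E] [NormedSpace ℝ E] {I : Type u}
    (x : I → E) (f : I → (E →L[ℝ] ℝ)) : Prop :=
  (∀ i, ‖x i‖ = 1) ∧ ∀ i, ‖f i‖ = 1

/-- The family of functionals is total: only the zero vector is annihilated by all of them. -/
def Total {E : Type} [NormedAddCommGroup E] [NormedSpace ℝ E] {I : Type u}
    (f : I → (E →L[ℝ] ℝ)) : Prop :=
  ∀ y : E, (∀ i, f i y = 0) → y = 0

/-- There is a real Banach space such that no normal extended biorthogonal system is total. -/
theorem result : ∃ (E : Type) (_ : NormedAddCommGroup E) (_ : NormedSpace ℝ E),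
    CompleteSpace E ∧
    ∀ (I : Type u) (x : I → E) (f : I → (E →L[ℝ] ℝ)),
      Biorthogonal x f → Normal x f → ¬ Total f := by
  classical
  let W : Type := (Cardinal.aleph 1).ord.ToType
  have hc : ∀ a : W, (Iio a).Countable := by
    intro a
    rw [← Cardinal.le_aleph0_iff_set_countable, ← Cardinal.lt_aleph_one_iff]
    exact Cardinal.mk_Iio_toType_ord_lt a
  have hmk : Cardinal.mk W = Cardinal.aleph 1 := Cardinal.mk_ord_toType _
  have hunc : Uncountable W := by
    rw [← Cardinal.aleph0_lt_mk_iff, hmk]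
    exact Cardinal.aleph0_lt_aleph_one
  let _ : TopologicalSpace W := ⊥
  have _ : DiscreteTopology W := ⟨rfl⟩
  obtain ⟨e, he, hcount⟩ := exists_coherent_injections hc
  have hemb : Nonempty (W ↪ (ℕ → Bool)) := by
    rw [← Cardinal.le_def, hmk]
    have h1 : Cardinal.mk (ℕ → Bool) = Cardinal.continuum := by
      simp
    rw [h1]
    exact Cardinal.aleph_one_le_continuum
  obtain ⟨ι⟩ := hemb
  let d : PData W :=
    { e := e
      t := fun a => sp (ι a)
      he := he
      ht0 := fun a => sp_nonneg _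
      ht1 := fun a => sp_le _ }
  have hT01 : ∀ t ∈ Set.range sp, 0 ≤ t ∧ t ≤ 1 / 2 := by
    rintro _ ⟨x, rfl⟩
    exact ⟨sp_nonneg x, sp_le x⟩
  refine ⟨d.SpT, inferInstance, inferInstance, inferInstance, ?_⟩
  intro I x f hbi hn htot
  obtain ⟨y, hy0, hy⟩ := not_total hc d hcount superSparse_range_sp hT01
    (fun a => ⟨ι a, rfl⟩) (sp_injective.comp ι.injective) x f hbi.1 hbi.2 hn.1 hn.2
  exact hy0 (htot y hy)

end Pool.Agent.Results.MP_735d18_an.ZFCCounterexample
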